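import Pool.Agent.W221.NS.Stm
import Pool.Agent.H459R3.NS.High2

/-!
MD-MBD: the mollified velocity is bounded.
-/

open MeasureTheory Set Metric
open scoped ContDiff

namespace Pool.Agent.W917.MD

open H459R3.NS W221.NS

theorem per_int {g : V → ℝ} (hg : Per g) (m : K3) (x : V) :
    g (x - fun i => (m i : ℝ)) = g x := by
  have h := Per.int hg m (x - fun i => (m i : ℝ))
  rw [← h]
  congr 1
  funext i
  simp

/-- integrals of periodic functions over balls -/
theorem ball_le (r : ℝ) : ∃ N : ℕ, ∀ g : V → ℝ, Continuous g → Per g → (∀ x, 0 ≤ g x) →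
    ∀ x : V, ∫ z in ball x r, g z ≤ N * ∫ z in cube, g z := by
  obtain ⟨n, hn⟩ := exists_nat_gt (1 + r)
  let S : Finset K3 := Fintype.piFinset (fun _ => Finset.Icc (-(n : ℤ)) n)
  refine ⟨S.card, fun g hc hp h0 x => ?_⟩
  let m : K3 := fun i => ⌊x i⌋
  have hcub : MeasurableSet cube := measurableSet_Icc
  have hint : Integrable (cube.indicator g) := (integrableOn_cube hc).integrable_indicator hcub
  have hint2 : ∀ k : K3, Integrable (fun z : V => cube.indicator g (z - fun i => ((k i : ℤ) : ℝ))) :=
    fun k => hint.comp_sub_right _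
  have key : ∀ z, (ball x r).indicator g z ≤
      ∑ k ∈ S, cube.indicator g (z - fun i => (((k + m) i : ℤ) : ℝ)) := by
    intro z
    by_cases hz : z ∈ ball x r
    · rw [indicator_of_mem hz]
      let k : K3 := fun i => ⌊z i⌋ - ⌊x i⌋
      have hk : k ∈ S := by
        rw [Fintype.mem_piFinset]
        intro i
        rw [Finset.mem_Icc]
        have h1 : |z i - x i| < r := by
          have h2 : dist (z i) (x i) ≤ dist z x := dist_le_pi_dist z x i
          rw [Real.dist_eq] at h2
          exact lt_of_le_of_lt h2 hz
        have h3 := abs_lt.1 h1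
        have h4 := Int.floor_le (z i)
        have h5 := Int.lt_floor_add_one (z i)
        have h6 := Int.floor_le (x i)
        have h7 := Int.lt_floor_add_one (x i)
        constructor
        · have : (-(n : ℤ) : ℝ) ≤ ((⌊z i⌋ - ⌊x i⌋ : ℤ) : ℝ) := by
            push_cast; linarith
          exact_mod_cast this
        · have : ((⌊z i⌋ - ⌊x i⌋ : ℤ) : ℝ) ≤ ((n : ℤ) : ℝ) := by
            push_cast; linarith
          exact_mod_cast this
      have h8 : cube.indicator g (z - fun i => (((k + m) i : ℤ) : ℝ)) = g z := by
        rw [indicator_of_mem, per_int hp]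
        refine ⟨fun i => ?_, fun i => ?_⟩
        · have : (0 : ℝ) ≤ z i - ⌊z i⌋ := by linarith [Int.floor_le (z i)]
          simpa [k, m] using this
        · have : z i - ⌊z i⌋ ≤ 1 := by linarith [Int.lt_floor_add_one (z i)]
          simpa [k, m] using this
      calc g z = cube.indicator g (z - fun i => (((k + m) i : ℤ) : ℝ)) := h8.symm
        _ ≤ _ := Finset.single_le_sum
          (f := fun k : K3 => cube.indicator g (z - fun i => (((k + m) i : ℤ) : ℝ)))
          (fun k _ => indicator_nonneg (fun y _ => h0 y) _) hk
    · rw [indicator_of_notMem hz]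
      exact Finset.sum_nonneg fun k _ => indicator_nonneg (fun y _ => h0 y) _
  calc ∫ z in ball x r, g z = ∫ z, (ball x r).indicator g z :=
        (integral_indicator measurableSet_ball).symm
    _ ≤ ∫ z, ∑ k ∈ S, cube.indicator g (z - fun i => (((k + m) i : ℤ) : ℝ)) := by
        refine integral_mono_of_nonneg (ae_of_all _ fun z => indicator_nonneg (fun y _ => h0 y) _)
          (integrable_finset_sum _ fun k _ => hint2 (k + m)) (ae_of_all _ key)
    _ = ∑ k ∈ S, ∫ z, cube.indicator g (z - fun i => (((k + m) i : ℤ) : ℝ)) :=
        integral_finset_sum _ fun k _ => hint2 (k + m)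
    _ = ∑ k ∈ S, ∫ z in cube, g z := by
        refine Finset.sum_congr rfl fun k _ => ?_
        rw [integral_sub_right_eq_self (cube.indicator g), integral_indicator hcub]
    _ = S.card * ∫ z in cube, g z := by rw [Finset.sum_const, nsmul_eq_mul]

theorem t_MBD : S_MBD := by
  intro T u p h r hr
  obtain ⟨N, hN⟩ := ball_le r
  obtain ⟨S, hS⟩ := (bmp.continuous_normed (μ := (volume : Measure V))).bounded_above_of_compact_support
    bmp.hasCompactSupport_normed
  have hS0 : 0 ≤ S := (norm_nonneg _).trans (hS 0)
  have hE0 : 0 ≤ energy (u 0) := energy_nonneg _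
  refine ⟨S * ((r ^ 3)⁻¹ * (N * (1 + energy (u 0)))), by positivity, fun t ht x => ?_⟩
  rw [pi_norm_le_iff_of_nonneg (by positivity)]
  intro i
  have ht' : t ∈ Ico 0 T := ⟨ht.1.le, ht.2⟩
  have hcu : ContDiff ℝ ∞ (u t) := by
    have h1 := h.smooth_u
    rw [contDiff_iff_contDiffAt]
    intro y
    have h2 : ContDiffWithinAt ℝ ∞ (fun y : V => (t, y)) univ y :=
      (contDiff_prodMk_right t).contDiffWithinAt
    have h3 := (h1 (t, y) ⟨ht', mem_univ _⟩).comp y h2 (fun z _ => ⟨ht', mem_univ _⟩)
    exact contDiffWithinAt_univ.1 h3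
  have hcf : Continuous (fun y => u t y i) := (continuous_apply i).comp hcu.continuous
  have hpf : Per (fun y => u t y i) := fun j y => by
    have := congrFun (h.per_u t ht' j y) i
    exact this
  set f : V → ℝ := fun y => u t y i with hf
  have hmol : mol r u t x i = ∫ y, W221.NS.th y * f (x + r • y) := rfl
  rw [hmol, Real.norm_eq_abs]
  let H : V → ℝ := (ball (0 : V) r).indicator (fun z => 1 + f (x + z) ^ 2)
  have hHm : ∀ y, |W221.NS.th y * f (x + r • y)| ≤ S * H (r • y) := by
    intro y
    by_cases hy : y ∈ ball (0 : V) 1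
    · have hy' : r • y ∈ ball (0 : V) r := by
        rw [mem_ball_zero_iff, norm_smul, Real.norm_eq_abs, abs_of_pos hr]
        rw [mem_ball_zero_iff] at hy
        nlinarith
      have e : H (r • y) = 1 + f (x + r • y) ^ 2 := indicator_of_mem hy' _
      rw [e, abs_mul]
      have h1 : |f (x + r • y)| ≤ 1 + f (x + r • y) ^ 2 := by
        rw [← sq_abs (f (x + r • y))]
        nlinarith [abs_nonneg (f (x + r • y)), sq_nonneg (|f (x + r • y)| - 1)]
      have h2 : |W221.NS.th y| ≤ S := hS y
      calc |W221.NS.th y| * |f (x + r • y)| ≤ S * |f (x + r • y)| := by gcongr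
        _ ≤ S * (1 + f (x + r • y) ^ 2) := by gcongr
    · have h1 : W221.NS.th y = 0 := by
        have h2 : y ∉ Function.support (bmp.normed (volume : Measure V)) := by
          rw [ContDiffBump.support_normed_eq]
          exact hy
        exact Function.notMem_support.1 h2
      rw [h1, zero_mul, abs_zero]
      exact mul_nonneg hS0 (indicator_nonneg (fun z _ => by positivity) _)
  have hHi : Integrable H := by
    refine IntegrableOn.integrable_indicator ?_ measurableSet_ball
    refine (Continuous.integrableOn_Icc (a := fun _ => -r) (b := fun _ => r) ?_).mono_set ?_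
    · exact continuous_const.add ((hcf.comp (continuous_const.add continuous_id)).pow 2)
    · intro z hz
      rw [mem_ball_zero_iff, pi_norm_lt_iff hr] at hz
      exact ⟨fun i => (abs_lt.1 (hz i)).1.le, fun i => (abs_lt.1 (hz i)).2.le⟩
  have hHi2 : Integrable (fun y => S * H (r • y)) :=
    ((integrable_comp_smul_iff (μ := (volume : Measure V)) H hr.ne').2 hHi).const_mul S
  have h3 : ∫ z, H z = ∫ z in ball x r, (1 + f z ^ 2) := by
    rw [← integral_indicator measurableSet_ball]
    rw [← integral_add_left_eq_self ((ball x r).indicator fun z => 1 + f z ^ 2) x]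
    refine integral_congr_ae (ae_of_all _ fun z => ?_)
    by_cases hz : z ∈ ball (0 : V) r
    · have : x + z ∈ ball x r := by
        rw [mem_ball_iff_norm]; simpa using hz
      show (ball (0 : V) r).indicator _ z = (ball x r).indicator _ (x + z)
      rw [indicator_of_mem hz, indicator_of_mem this]
    · have : x + z ∉ ball x r := by
        rw [mem_ball_iff_norm]; simpa using hz
      show (ball (0 : V) r).indicator _ z = (ball x r).indicator _ (x + z)
      rw [indicator_of_notMem hz, indicator_of_notMem this]
  have h4 : ∫ z in cube, (1 + f z ^ 2) ≤ 1 + energy (u 0) := by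
    have hc1 : IntegrableOn (fun _ : V => (1 : ℝ)) cube := integrableOn_cube continuous_const
    have hc2 : IntegrableOn (fun z : V => f z ^ 2) cube := integrableOn_cube (hcf.pow 2)
    rw [integral_add hc1 hc2]
    have h5 : ∫ z in cube, (1 : ℝ) = 1 := by
      rw [setIntegral_const, measureReal_def, volume_cube]; simp
    have h6 : ∫ z in cube, f z ^ 2 ≤ energy (u t) := by
      unfold energy
      exact Finset.single_le_sum (f := fun i => ∫ x in cube, u t x i ^ 2)
        (fun j _ => integral_nonneg fun z => by positivity) (Finset.mem_univ i)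
    have h7 := h.energy_le one_pos ht'
    rw [h5]
    linarith
  calc |∫ y, W221.NS.th y * f (x + r • y)| ≤ ∫ y, |W221.NS.th y * f (x + r • y)| :=
        abs_integral_le_integral_abs
    _ ≤ ∫ y, S * H (r • y) := integral_mono_of_nonneg (ae_of_all _ fun y => abs_nonneg _) hHi2
        (ae_of_all _ hHm)
    _ = S * ∫ y, H (r • y) := integral_const_mul _ _
    _ = S * ((r ^ 3)⁻¹ * ∫ z, H z) := by
        rw [Measure.integral_comp_smul]
        simp only [Module.finrank_fintype_fun_eq_card, Fintype.card_fin, smul_eq_mul]
        rw [abs_of_pos (by positivity)]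
    _ ≤ S * ((r ^ 3)⁻¹ * (N * (1 + energy (u 0)))) := by
        rw [h3]
        have h8 := hN (fun z => 1 + f z ^ 2) (continuous_const.add (hcf.pow 2))
          (fun j y => by
            have := hpf j y
            simp only [hf] at this ⊢
            rw [this]) (fun y => by positivity) x
        gcongr
        refine h8.trans ?_
        gcongr

end Pool.Agent.W917.MD
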